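import Pool.Agent.Q122.Hub.Lower

set_option autoImplicit false

/-!
# The strong hub cover pebbling number of cycles
-/

namespace Pool.Agent.Results.MP_7e79aa_co.AllCycles

open Q122.Hub SimpleGraph

/-- The strong hub cover pebbling number of the cycle `C_n` is `2^k + 2^(k-1) - 3` if `n = 2k ≥ 4`
and `2^(k+1) - 3` if `n = 2k + 1 ≥ 3`. -/
theorem result :
    (∀ k : ℕ, 2 ≤ k →
      IsLeast {t | HubProperty (cycleGraph (2 * k)) t} (2 ^ k + 2 ^ (k - 1) - 3) ∧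
      hubNumber (cycleGraph (2 * k)) = 2 ^ k + 2 ^ (k - 1) - 3) ∧
    ∀ k : ℕ, 1 ≤ k →
      IsLeast {t | HubProperty (cycleGraph (2 * k + 1)) t} (2 ^ (k + 1) - 3) ∧
      hubNumber (cycleGraph (2 * k + 1)) = 2 ^ (k + 1) - 3 :=
  ⟨fun _ hk => ⟨least_even hk, (least_even hk).csInf_eq⟩,
    fun _ hk => ⟨least_odd hk, (least_odd hk).csInf_eq⟩⟩

end Pool.Agent.Results.MP_7e79aa_co.AllCycles
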